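import Pool.Agent.Helper60.Burau.Stab
import Pool.Agent.Helper76.Conway.TopMk

/-!
# Existence and uniqueness of the Conway polynomial of braids
-/

set_option autoImplicit false

namespace Pool.Agent.Helper60.Burau

open Matrix Polynomial

/-- `ℤ[z]` with `s` and `1 / s = s + z` adjoined. -/
abbrev QR : Type := QuadraticAlgebra ℤ[X] 1 (-X)

/-- The element `s`. -/
noncomputable def ss : QR := ⟨0, 1⟩

/-- The inverse of `s`. -/
noncomputable def tt : QR := ⟨X, 1⟩

theorem hst : ss * tt = 1 := by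
  ext <;> simp [ss, tt, QuadraticAlgebra.re_one, QuadraticAlgebra.im_one]

theorem re_mul (a : QR) : ((tt - ss) * a).re = X * a.re := by
  simp [ss, tt]

section existence

variable {G : ℕ → Type} [∀ n, Group (G n)] (σ : ∀ n, Fin n → G n) (incl : ∀ n, G n →* G (n + 1))

/-- The Conway polynomial exists: for every presentation of the braid groups `G n` (on `n + 1` strands) there is a family of
functions with the properties of the Conway polynomial of the closure. -/
theorem exists_family (hincl : ∀ n i, incl n (σ n i) = σ (n + 1) i.castSucc)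
    (hgen : ∀ n, Subgroup.closure (Set.range (σ n)) = ⊤)
    (hlift : ∀ (H : Type) [Group H] (n : ℕ) (f : Fin n → H),
      (∀ i j : Fin n, (i : ℕ) + 1 = j → f i * f j * f i = f j * f i * f j) →
      (∀ i j : Fin n, (i : ℕ) + 2 ≤ j → f i * f j = f j * f i) → ∃ φ : G n →* H, ∀ i, φ (σ n i) = f i) :
    ∃ nabla : ∀ n, G n → ℤ[X], nabla 0 1 = 1 ∧ (∀ n a b, nabla n (a * b) = nabla n (b * a)) ∧
      (∀ n b, nabla (n + 1) (incl n b * σ (n + 1) (Fin.last n)) = nabla n b) ∧
      (∀ n b, nabla (n + 1) (incl n b * (σ (n + 1) (Fin.last n))⁻¹) = nabla n b) ∧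
      ∀ n a b i, nabla n (a * σ n i * b) - nabla n (a * (σ n i)⁻¹ * b) = X * nabla n (a * b) := by
  choose φ hφ using fun n => hlift (Fix (ss ^ 2) n) n (g ss tt hst n) (g_braid ss tt hst n) (g_comm ss tt hst n)
  have hemb : ∀ (n : ℕ) (b : G n), ((φ (n + 1) (incl n b)).1.1 : Matrix (Fin (n + 2)) (Fin (n + 2)) QR) =
      embM n ((φ n b).1.1 : Matrix (Fin (n + 1)) (Fin (n + 1)) QR) ∧
      ((φ (n + 1) (incl n b)).1.2 : QR) = ((φ n b).1.2 : QR) := by
    intro n b
    let f1 : G n →* Matrix (Fin (n + 2)) (Fin (n + 2)) QR × QR :=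
      (((Units.coeHom _).prodMap (Units.coeHom _)).comp (Fix (ss ^ 2) (n + 1)).subtype).comp ((φ (n + 1)).comp (incl n))
    let f2 : G n →* Matrix (Fin (n + 2)) (Fin (n + 2)) QR × QR :=
      ((((embM n).comp (Units.coeHom _)).prodMap (Units.coeHom _)).comp (Fix (ss ^ 2) n).subtype).comp (φ n)
    have h12 : f1 = f2 := by
      refine MonoidHom.eq_of_eqOn_dense (hgen n) ?_
      rintro _ ⟨i, rfl⟩
      have e1 : f1 (σ n i) = (1 + P (ss ^ 2) (n + 1) i.castSucc, tt) := by
        change (((φ (n + 1) (incl n (σ n i))).1.1 : Matrix (Fin (n + 2)) (Fin (n + 2)) QR),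
          ((φ (n + 1) (incl n (σ n i))).1.2 : QR)) = _
        rw [hincl, hφ]
        rfl
      have e2 : f2 (σ n i) = (embM n (1 + P (ss ^ 2) n i), tt) := by
        change (embM n ((φ n (σ n i)).1.1 : Matrix (Fin (n + 1)) (Fin (n + 1)) QR), ((φ n (σ n i)).1.2 : QR)) = _
        rw [hφ]
        rfl
      rw [e1, e2, embM_P]
    have h := DFunLike.congr_fun h12 b
    exact ⟨congrArg Prod.fst h, congrArg Prod.snd h⟩
  have hskein : ∀ n a b i, cv ss (ss ^ 2) n (φ n (a * σ n i * b)) - cv ss (ss ^ 2) n (φ n (a * (σ n i)⁻¹ * b)) =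
      (tt - ss) * cv ss (ss ^ 2) n (φ n (a * b)) := by
    intro n a b i
    rw [map_mul, map_mul, map_mul, map_mul, map_inv, map_mul, hφ, cv_skein]
  have hstab : ∀ n b, cv ss (ss ^ 2) (n + 1) (φ (n + 1) (incl n b * σ (n + 1) (Fin.last n))) = cv ss (ss ^ 2) n (φ n b) := by
    intro n b
    rw [map_mul, hφ]
    have e : cv ss (ss ^ 2) (n + 1) (φ (n + 1) (incl n b) * g ss tt hst (n + 1) (Fin.last n)) =
        ss ^ (n + 1) * (((φ (n + 1) (incl n b)).1.2 : QR) * tt) *
          (1 - ((φ (n + 1) (incl n b)).1.1 : Matrix (Fin (n + 2)) (Fin (n + 2)) QR) * (1 + P (ss ^ 2) (n + 1) (Fin.last n)) +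
            single 0 0 1).det := rfl
    rw [e, (hemb n b).1, (hemb n b).2, det_stab]
    unfold cv
    linear_combination (ss ^ n * ((φ n b).1.2 : QR) *
      (1 - ((φ n b).1.1 : Matrix (Fin (n + 1)) (Fin (n + 1)) QR) + single 0 0 1).det) * hst
  have hzero : ∀ n b, cv ss (ss ^ 2) (n + 1) (φ (n + 1) (incl n b)) = 0 := by
    intro n b
    unfold cv
    rw [(hemb n b).1, det_emb, mul_zero]
  refine ⟨fun n b => (cv ss (ss ^ 2) n (φ n b)).re, ?_, ?_, ?_, ?_, ?_⟩
  · change (cv ss (ss ^ 2) 0 (φ 0 1)).re = 1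
    rw [map_one, cv_zero]
    rfl
  · intro n a b
    change (cv ss (ss ^ 2) n (φ n (a * b))).re = (cv ss (ss ^ 2) n (φ n (b * a))).re
    rw [map_mul, map_mul, cv_conj]
  · intro n b
    change (cv ss (ss ^ 2) (n + 1) (φ (n + 1) (incl n b * σ (n + 1) (Fin.last n)))).re = (cv ss (ss ^ 2) n (φ n b)).re
    rw [hstab]
  · intro n b
    change (cv ss (ss ^ 2) (n + 1) (φ (n + 1) (incl n b * (σ (n + 1) (Fin.last n))⁻¹))).re = (cv ss (ss ^ 2) n (φ n b)).re
    have h := hskein (n + 1) (incl n b) 1 (Fin.last n)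
    rw [mul_one, mul_one, mul_one, hzero, mul_zero, hstab, sub_eq_zero] at h
    rw [← h]
  · intro n a b i
    change (cv ss (ss ^ 2) n (φ n (a * σ n i * b))).re - (cv ss (ss ^ 2) n (φ n (a * (σ n i)⁻¹ * b))).re =
      X * (cv ss (ss ^ 2) n (φ n (a * b))).re
    rw [← QuadraticAlgebra.re_sub, hskein, re_mul]

end existence

section uniqueness

open Pool.Agent.Helper76.Conway.Top

variable {G : ℕ → Type} [∀ n, Group (G n)] {s : ∀ n, ℕ → G n} {N N' : ∀ n, G n → ℤ[X]}

theorem words_unique (h : Mk G s N) (h' : Mk G s N') : ∀ (n : ℕ) (w : List ℕ), (∀ a ∈ w, a < n) →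
    N n (V (s n) w) = N' n (V (s n) w) := by
  intro n
  induction n with
  | zero =>
    intro w hw
    have hw0 : w = [] := by
      cases w with
      | nil => rfl
      | cons a u => exact absurd (hw a (by simp)) (by omega)
    rw [hw0, V_nil, h.one, h'.one]
  | succ n ihn =>
    intro w hw
    refine word_ind (Pr := fun w => N (n + 1) (V (s (n + 1)) w) = N' (n + 1) (V (s (n + 1)) w)) ?_ ?_ ?_ ?_ w hw
    · intro u v e hv
      rw [h.V_eqv e]
      exact hv
    · intro x j y hb h1 h2
      rw [h.quad_word (hb j (by simp)), h'.quad_word (hb j (by simp)), h1, h2]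
    · intro u hu
      rw [h.top_zero hu, h'.top_zero hu]
    · intro u v hu hv
      rw [h.destab hu hv, h'.destab hu hv]
      refine ihn _ ?_
      intro a ha
      rcases List.mem_append.1 ha with ha | ha
      · exact hu a ha
      · exact hv a ha

/-- The Conway polynomial is unique. -/
theorem unique_family (h : Mk G s N) (h' : Mk G s N') (hgen : ∀ n, Subgroup.closure {x | ∃ i < n, s n i = x} = ⊤) :
    N = N' := by
  have key : ∀ (n : ℕ) (x : G n) (u : List ℕ), (∀ a ∈ u, a < n) → N n (V (s n) u * x) = N' n (V (s n) u * x) := by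
    intro n x
    have hx : x ∈ Subgroup.closure {x | ∃ i < n, s n i = x} := by rw [hgen]; exact Subgroup.mem_top x
    induction hx using Subgroup.closure_induction_left with
    | one =>
      intro u hu
      rw [mul_one]
      exact words_unique h h' n u hu
    | mul_left x hx y _ ih =>
      obtain ⟨i, hi, rfl⟩ := hx
      intro u hu
      have e : V (s n) u * (s n i * y) = V (s n) (u ++ [i]) * y := by
        rw [V_append, V_cons, V_nil, mul_one, mul_assoc]
      rw [e]
      refine ih _ ?_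
      intro a ha
      rcases List.mem_append.1 ha with ha | ha
      · exact hu a ha
      · rw [List.mem_singleton.1 ha]
        exact hi
    | inv_mul_cancel x hx y _ ih =>
      obtain ⟨i, hi, rfl⟩ := hx
      intro u hu
      have e : V (s n) u * s n i * y = V (s n) (u ++ [i]) * y := by
        rw [V_append, V_cons, V_nil, mul_one]
      rw [← mul_assoc, h.inv_eq hi, h'.inv_eq hi, e, ih u hu]
      rw [ih (u ++ [i])]
      intro a ha
      rcases List.mem_append.1 ha with ha | ha
      · exact hu a ha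
      · rw [List.mem_singleton.1 ha]
        exact hi
  funext n x
  have := key n x [] (by simp)
  rwa [V_nil, one_mul] at this

end uniqueness

end Pool.Agent.Helper60.Burau
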