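import Mathlib

/-!
# Determinants of singular matrices with known kernels
-/

set_option autoImplicit false

namespace Pool.Agent.Helper60.Burau

open Matrix

variable {R : Type*} [CommRing R] {m : Type*} [Fintype m] [DecidableEq m]

theorem det_eq_zero_of_mulVec {M : Matrix m m R} {u : m → R} {i : m} (hu : u i = 1) (h : M *ᵥ u = 0) : M.det = 0 := by
  have h1 : (M.adjugate * M) *ᵥ u = 0 := by rw [← mulVec_mulVec, h, mulVec_zero]
  rw [adjugate_mul, smul_mulVec, one_mulVec] at h1
  have h2 := congrFun h1 i
  simpa [hu] using h2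

/-- The columns of the adjugate are proportional to a kernel vector. -/
theorem adjugate_of_mulVec {M : Matrix m m R} {u : m → R} {o : m} (hu : u o = 1) (h : M *ᵥ u = 0) (i j : m) :
    adjugate M i j = u i * adjugate M o j := by
  have h1 : (M.updateRow j (Pi.single i 1 + (-u i) • Pi.single o 1)).det = 0 := by
    refine det_eq_zero_of_mulVec hu ?_
    funext k
    by_cases hk : k = j
    · subst hk
      change (M.updateRow k (Pi.single i 1 + (-u i) • Pi.single o 1)) k ⬝ᵥ u = 0
      rw [updateRow_self, add_dotProduct, smul_dotProduct, single_dotProduct, single_dotProduct, hu]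
      simp
    · have h2 := congrFun h k
      simpa [mulVec, updateRow_ne hk] using h2
  rw [det_updateRow_add, det_updateRow_smul, ← adjugate_apply, ← adjugate_apply] at h1
  linear_combination h1

theorem adjugate_of_vecMul {M : Matrix m m R} {v : m → R} {o : m} (hv : v o = 1) (h : v ᵥ* M = 0) (i j : m) :
    adjugate M i j = v j * adjugate M i o := by
  have h1 := adjugate_of_mulVec (M := Mᵀ) hv (by rw [mulVec_transpose, h]) j i
  rw [← adjugate_transpose] at h1
  exact h1

/-- A matrix plus a unit matrix. -/
theorem det_add_single (M : Matrix m m R) (o : m) : (M + single o o 1).det = M.det + adjugate M o o := by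
  have h1 : M + single o o 1 = M.updateRow o (M o + Pi.single o 1) := by
    ext i j
    by_cases hi : i = o
    · subst hi
      simp [single_apply, Pi.single_apply, eq_comm]
    · rw [updateRow_ne hi]
      simp [Ne.symm hi]
  rw [h1, det_updateRow_add, updateRow_eq_self, adjugate_apply]

/-- Conjugation invariance. -/
theorem det_conj {A B : Matrix m m R} {u v : m → R} {o : m} (hu : u o = 1) (hv : v o = 1) (hAu : A *ᵥ u = u) (hBu : B *ᵥ u = u)
    (hAv : v ᵥ* A = v) (hBv : v ᵥ* B = v) (hA : IsUnit A.det) :
    (1 - A * B + single o o 1).det = (1 - B * A + single o o 1).det := by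
  have k1 : (1 - A * B) *ᵥ u = 0 := by rw [sub_mulVec, one_mulVec, ← mulVec_mulVec, hBu, hAu, sub_self]
  have k2 : (1 - B * A) *ᵥ u = 0 := by rw [sub_mulVec, one_mulVec, ← mulVec_mulVec, hAu, hBu, sub_self]
  have k3 : v ᵥ* (1 - A * B) = 0 := by rw [vecMul_sub, vecMul_one, ← vecMul_vecMul, hAv, hBv, sub_self]
  have k4 : v ᵥ* (1 - B * A) = 0 := by rw [vecMul_sub, vecMul_one, ← vecMul_vecMul, hBv, hAv, sub_self]
  rw [det_add_single, det_add_single, det_eq_zero_of_mulVec hu k1, det_eq_zero_of_mulVec hu k2, zero_add, zero_add]
  have e : A * (1 - B * A) = (1 - A * B) * A := by noncomm_ring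
  have e1 : adjugate (1 - B * A) * adjugate A = adjugate A * adjugate (1 - A * B) := by
    rw [← adjugate_mul_distrib, ← adjugate_mul_distrib, e]
  have e2 := congrFun (congrFun e1 o) o
  have l1 : (adjugate (1 - B * A) * adjugate A : Matrix m m R) o o = adjugate (1 - B * A) o o * A.det := by
    have h3 : v ᵥ* adjugate A = A.det • v := by
      calc v ᵥ* adjugate A = (v ᵥ* A) ᵥ* adjugate A := by rw [hAv]
        _ = A.det • v := by rw [vecMul_vecMul, mul_adjugate, vecMul_smul, vecMul_one]
    have h4 := congrFun h3 o
    rw [mul_apply]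
    have h5 : ∀ j, adjugate (1 - B * A) o j * adjugate A j o = adjugate (1 - B * A) o o * (v j * adjugate A j o) := by
      intro j
      rw [adjugate_of_vecMul hv k4 o j]
      ring
    rw [Finset.sum_congr rfl fun j _ => h5 j, ← Finset.mul_sum]
    congr 1
    simpa [vecMul, dotProduct, hv] using h4
  have l2 : (adjugate A * adjugate (1 - A * B) : Matrix m m R) o o = A.det * adjugate (1 - A * B) o o := by
    have h3 : adjugate A *ᵥ u = A.det • u := by
      calc adjugate A *ᵥ u = adjugate A *ᵥ (A *ᵥ u) := by rw [hAu]
        _ = A.det • u := by rw [mulVec_mulVec, adjugate_mul, smul_mulVec, one_mulVec]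
    have h4 := congrFun h3 o
    rw [mul_apply]
    have h5 : ∀ i, adjugate A o i * adjugate (1 - A * B) i o = (adjugate A o i * u i) * adjugate (1 - A * B) o o := by
      intro i
      rw [adjugate_of_mulVec hu k1 i o]
      ring
    rw [Finset.sum_congr rfl fun j _ => h5 j, ← Finset.sum_mul]
    congr 1
    simpa [mulVec, dotProduct, hu] using h4
  rw [l1, l2] at e2
  have h6 : A.det * adjugate (1 - A * B) o o = A.det * adjugate (1 - B * A) o o := by rw [← e2]; ring
  exact hA.mul_left_cancel h6

/-- The determinant of a rank one perturbation is affine in the parameter. -/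
theorem det_rank_one (N : Matrix m m R) (p q : m → R) :
    ∃ D : R, ∀ c : R, (N + c • vecMulVec p q).det = N.det + c * D := by
  refine ⟨((fromBlocks N (replicateCol Unit (-p)) (0 : Matrix Unit m R) (0 : Matrix Unit Unit R)).updateRow (Sum.inr ())
    (Sum.elim q (fun _ => 0))).det, fun c => ?_⟩
  have h1 : (N + c • vecMulVec p q).det =
      (fromBlocks N (replicateCol Unit (-p)) (replicateRow Unit (c • q)) (1 : Matrix Unit Unit R)).det := by
    rw [det_fromBlocks_one₂₂]
    congr 1
    ext i j
    simp [mul_apply, vecMulVec_apply]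
  have h2 : fromBlocks N (replicateCol Unit (-p)) (replicateRow Unit (c • q)) (1 : Matrix Unit Unit R) =
      (fromBlocks N (replicateCol Unit (-p)) (0 : Matrix Unit m R) (0 : Matrix Unit Unit R)).updateRow (Sum.inr ())
        (Sum.elim (fun _ => 0) (fun _ => 1) + c • Sum.elim q (fun _ => 0)) := by
    ext i j
    rcases i with i | i
    · rw [updateRow_ne (by simp)]
      rcases j with j | j <;> simp
    · rcases j with j | j <;> simp
  have h3 : (fromBlocks N (replicateCol Unit (-p)) (0 : Matrix Unit m R) (0 : Matrix Unit Unit R)).updateRow (Sum.inr ())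
        (Sum.elim (fun _ => 0) (fun _ => 1)) = fromBlocks N (replicateCol Unit (-p)) (0 : Matrix Unit m R) (1 : Matrix Unit Unit R) := by
    ext i j
    rcases i with i | i
    · rw [updateRow_ne (by simp)]
      rcases j with j | j <;> simp
    · rcases j with j | j <;> simp
  rw [h1, h2, det_updateRow_add, det_updateRow_smul, h3, det_fromBlocks_zero₂₁, det_one, mul_one]

end Pool.Agent.Helper60.Burau
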