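import Pool.Agent.Helper60.Burau.Adj

/-!
# The Burau matrices
-/

set_option autoImplicit false

namespace Pool.Agent.Helper60.Burau

open Matrix

variable {R : Type*} [CommRing R]

section
variable {m : Type*} [Fintype m] [DecidableEq m]

/-- The braid relation for two perturbations of the identity. -/
theorem braid_rel (q : R) {P Q : Matrix m m R} (hP : P * P = (-(1 + q)) • P) (hQ : Q * Q = (-(1 + q)) • Q)
    (hPQP : P * Q * P = q • P) (hQPQ : Q * P * Q = q • Q) : (1 + P) * (1 + Q) * (1 + P) = (1 + Q) * (1 + P) * (1 + Q) := by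
  have e1 : (1 + P) * (1 + Q) * (1 + P) = 1 + P + P + Q + P * P + P * Q + Q * P + P * Q * P := by noncomm_ring
  have e2 : (1 + Q) * (1 + P) * (1 + Q) = 1 + Q + Q + P + Q * Q + Q * P + P * Q + Q * P * Q := by noncomm_ring
  rw [e1, e2, hP, hQ, hPQP, hQPQ]
  module

omit [DecidableEq m] in
theorem rank_one_rel (x y x' y' : m → R) :
    vecMulVec x y * vecMulVec x' y' = (y ⬝ᵥ x') • vecMulVec x y' := by
  rw [vecMulVec_mul_vecMulVec]
  ext i j
  simp [vecMulVec_apply]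
  ring

end

/-- The column of the rank one matrix `σ_i - 1`. -/
def xv (q : R) (n : ℕ) (i : Fin n) : Fin (n + 1) → R := Pi.single i.castSucc (-q) + Pi.single i.succ 1

/-- The row of the rank one matrix `σ_i - 1`. -/
def yv (n : ℕ) (i : Fin n) : Fin (n + 1) → R := Pi.single i.castSucc 1 - Pi.single i.succ 1

theorem yv_dot (n : ℕ) (i : Fin n) (f : Fin (n + 1) → R) : yv n i ⬝ᵥ f = f i.castSucc - f i.succ := by
  rw [yv, sub_dotProduct, single_dotProduct, single_dotProduct, one_mul, one_mul]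

theorem xv_apply (q : R) (n : ℕ) (i : Fin n) (j : Fin (n + 1)) :
    xv q n i j = (if (j : ℕ) = i then -q else 0) + if (j : ℕ) = i + 1 then 1 else 0 := by
  simp only [xv, Pi.add_apply, Pi.single_apply, Fin.ext_iff, Fin.val_castSucc, Fin.val_succ]

theorem yx_self (q : R) (n : ℕ) (i : Fin n) : yv n i ⬝ᵥ xv q n i = -(1 + q) := by
  rw [yv_dot, xv_apply, xv_apply]
  simp
  ring

theorem yx_up (q : R) (n : ℕ) (i j : Fin n) (h : (i : ℕ) + 1 = j) : yv n i ⬝ᵥ xv q n j = q := by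
  rw [yv_dot, xv_apply, xv_apply]
  simp only [Fin.val_castSucc, Fin.val_succ]
  rw [if_neg (by omega), if_neg (by omega), if_pos (by omega), if_neg (by omega)]
  ring

theorem yx_down (q : R) (n : ℕ) (i j : Fin n) (h : (i : ℕ) + 1 = j) : yv n j ⬝ᵥ xv q n i = 1 := by
  rw [yv_dot, xv_apply, xv_apply]
  simp only [Fin.val_castSucc, Fin.val_succ]
  rw [if_neg (by omega), if_pos (by omega), if_neg (by omega), if_neg (by omega)]
  ring

theorem yx_far (q : R) (n : ℕ) (i j : Fin n) (h : (i : ℕ) + 2 ≤ j) : yv n i ⬝ᵥ xv q n j = 0 := by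
  rw [yv_dot, xv_apply, xv_apply]
  simp only [Fin.val_castSucc, Fin.val_succ]
  rw [if_neg (by omega), if_neg (by omega), if_neg (by omega), if_neg (by omega)]
  ring

theorem yx_far' (q : R) (n : ℕ) (i j : Fin n) (h : (i : ℕ) + 2 ≤ j) : yv n j ⬝ᵥ xv q n i = 0 := by
  rw [yv_dot, xv_apply, xv_apply]
  simp only [Fin.val_castSucc, Fin.val_succ]
  rw [if_neg (by omega), if_neg (by omega), if_neg (by omega), if_neg (by omega)]
  ring

/-- The rank one matrix `σ_i - 1`. -/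
def P (q : R) (n : ℕ) (i : Fin n) : Matrix (Fin (n + 1)) (Fin (n + 1)) R := vecMulVec (xv q n i) (yv n i)

theorem P_sq (q : R) (n : ℕ) (i : Fin n) : P q n i * P q n i = (-(1 + q)) • P q n i := by
  rw [P, rank_one_rel, yx_self]

theorem P_udu (q : R) (n : ℕ) (i j : Fin n) (h : (i : ℕ) + 1 = j) : P q n i * P q n j * P q n i = q • P q n i := by
  rw [P, P, rank_one_rel, smul_mul_assoc, rank_one_rel, smul_smul, yx_up q n i j h, yx_down q n i j h, mul_one]

theorem P_dud (q : R) (n : ℕ) (i j : Fin n) (h : (i : ℕ) + 1 = j) : P q n j * P q n i * P q n j = q • P q n j := by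
  rw [P, P, rank_one_rel, smul_mul_assoc, rank_one_rel, smul_smul, yx_up q n i j h, yx_down q n i j h, one_mul]

theorem P_far (q : R) (n : ℕ) (i j : Fin n) (h : (i : ℕ) + 2 ≤ j) : P q n i * P q n j = 0 := by
  rw [P, P, rank_one_rel, yx_far q n i j h, zero_smul]

theorem P_far' (q : R) (n : ℕ) (i j : Fin n) (h : (i : ℕ) + 2 ≤ j) : P q n j * P q n i = 0 := by
  rw [P, P, rank_one_rel, yx_far' q n i j h, zero_smul]

/-- The vector of the powers of `q`. -/
def pw (q : R) (n : ℕ) : Fin (n + 1) → R := fun j => q ^ (j : ℕ)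

theorem P_one (q : R) (n : ℕ) (i : Fin n) : P q n i *ᵥ 1 = 0 := by
  rw [P, vecMulVec_mulVec, yv_dot]
  funext j
  simp

theorem pw_P (q : R) (n : ℕ) (i : Fin n) : pw q n ᵥ* P q n i = 0 := by
  have h : pw q n ⬝ᵥ xv q n i = 0 := by
    rw [xv, dotProduct_add, dotProduct_single, dotProduct_single]
    simp only [pw, Fin.val_castSucc, Fin.val_succ]
    ring
  rw [P, vecMul_vecMulVec, h, zero_smul]

variable (s t : R)

/-- The Burau matrix of the generator, `s * t = 1`. -/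
def sg (hst : s * t = 1) (n : ℕ) (i : Fin n) : (Matrix (Fin (n + 1)) (Fin (n + 1)) R)ˣ where
  val := 1 + P (s ^ 2) n i
  inv := 1 + t ^ 2 • P (s ^ 2) n i
  val_inv := by
    have e : (1 + P (s ^ 2) n i) * (1 + t ^ 2 • P (s ^ 2) n i) =
        1 + P (s ^ 2) n i + t ^ 2 • P (s ^ 2) n i + t ^ 2 • (P (s ^ 2) n i * P (s ^ 2) n i) := by
      rw [mul_add, mul_one, mul_smul_comm, add_mul, one_mul, smul_add]
      abel
    rw [e, P_sq, smul_smul]
    have h : t ^ 2 * -(1 + s ^ 2) = -1 - t ^ 2 := by linear_combination (-(s * t) - 1) * hst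
    rw [h]
    module
  inv_val := by
    have e : (1 + t ^ 2 • P (s ^ 2) n i) * (1 + P (s ^ 2) n i) =
        1 + P (s ^ 2) n i + t ^ 2 • P (s ^ 2) n i + t ^ 2 • (P (s ^ 2) n i * P (s ^ 2) n i) := by
      rw [mul_add, mul_one, add_mul, one_mul, smul_mul_assoc]
      abel
    rw [e, P_sq, smul_smul]
    have h : t ^ 2 * -(1 + s ^ 2) = -1 - t ^ 2 := by linear_combination (-(s * t) - 1) * hst
    rw [h]
    module

/-- The scalar of a generator. -/
def tu (hst : s * t = 1) : Rˣ := ⟨t, s, by rw [mul_comm]; exact hst, hst⟩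

/-- The pairs of a matrix and a scalar such that the matrix fixes the two vectors. -/
def Fix (q : R) (n : ℕ) : Subgroup ((Matrix (Fin (n + 1)) (Fin (n + 1)) R)ˣ × Rˣ) where
  carrier := {g | (g.1 : Matrix (Fin (n + 1)) (Fin (n + 1)) R) *ᵥ 1 = 1 ∧
    pw q n ᵥ* (g.1 : Matrix (Fin (n + 1)) (Fin (n + 1)) R) = pw q n}
  mul_mem' := by
    rintro a b ⟨h1, h2⟩ ⟨h3, h4⟩
    refine ⟨?_, ?_⟩
    · rw [Prod.fst_mul, Units.val_mul, ← mulVec_mulVec, h3, h1]
    · rw [Prod.fst_mul, Units.val_mul, ← vecMul_vecMul, h2, h4]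
  one_mem' := by
    refine ⟨?_, ?_⟩
    · rw [Prod.fst_one, Units.val_one, one_mulVec]
    · rw [Prod.fst_one, Units.val_one, vecMul_one]
  inv_mem' := by
    rintro a ⟨h1, h2⟩
    refine ⟨?_, ?_⟩
    · rw [Prod.fst_inv]
      conv_lhs => rw [← h1]
      rw [mulVec_mulVec, Units.inv_mul, one_mulVec]
    · rw [Prod.fst_inv]
      conv_lhs => rw [← h2]
      rw [vecMul_vecMul, Units.mul_inv, vecMul_one]

/-- The generators. -/
def g (hst : s * t = 1) (n : ℕ) (i : Fin n) : Fix (s ^ 2) n :=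
  ⟨(sg s t hst n i, tu s t hst), by
    refine ⟨?_, ?_⟩
    · change (1 + P (s ^ 2) n i) *ᵥ 1 = 1
      rw [add_mulVec, one_mulVec, P_one, add_zero]
    · change pw (s ^ 2) n ᵥ* (1 + P (s ^ 2) n i) = pw (s ^ 2) n
      rw [vecMul_add, vecMul_one, pw_P, add_zero]⟩

theorem g_braid (hst : s * t = 1) (n : ℕ) (i j : Fin n) (h : (i : ℕ) + 1 = j) :
    g s t hst n i * g s t hst n j * g s t hst n i = g s t hst n j * g s t hst n i * g s t hst n j := by
  apply Subtype.ext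
  refine Prod.ext ?_ rfl
  apply Units.ext
  exact braid_rel (s ^ 2) (P_sq _ n i) (P_sq _ n j) (P_udu _ n i j h) (P_dud _ n i j h)

theorem g_comm (hst : s * t = 1) (n : ℕ) (i j : Fin n) (h : (i : ℕ) + 2 ≤ j) :
    g s t hst n i * g s t hst n j = g s t hst n j * g s t hst n i := by
  apply Subtype.ext
  refine Prod.ext ?_ rfl
  apply Units.ext
  change (1 + P (s ^ 2) n i) * (1 + P (s ^ 2) n j) = (1 + P (s ^ 2) n j) * (1 + P (s ^ 2) n i)
  rw [mul_add, mul_one, add_mul, one_mul, P_far _ n i j h, mul_add, mul_one, add_mul, one_mul, P_far' _ n i j h]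
  abel

/-- The value. -/
def cv (q : R) (n : ℕ) (a : Fix q n) : R :=
  s ^ n * (a.1.2 : R) * (1 - (a.1.1 : Matrix (Fin (n + 1)) (Fin (n + 1)) R) + single 0 0 1).det

theorem cv_zero (q : R) : cv s q 0 1 = 1 := by
  unfold cv
  simp

theorem cv_conj (q : R) (n : ℕ) (a b : Fix q n) : cv s q n (a * b) = cv s q n (b * a) := by
  unfold cv
  have h1 : (a * b).1.1 = a.1.1 * b.1.1 := rfl
  have h2 : (b * a).1.1 = b.1.1 * a.1.1 := rfl
  have h3 : (a * b).1.2 = (b * a).1.2 := mul_comm _ _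
  rw [h1, h2, h3, Units.val_mul, Units.val_mul,
    det_conj (u := 1) (v := pw q n) (o := 0) rfl (by simp [pw]) a.2.1 b.2.1 a.2.2 b.2.2
      ((isUnit_iff_isUnit_det _).1 a.1.1.isUnit)]

theorem cv_skein' (hst : s * t = 1) (n : ℕ) (a : Fix (s ^ 2) n) (i : Fin n) :
    cv s (s ^ 2) n (a * g s t hst n i) - cv s (s ^ 2) n (a * (g s t hst n i)⁻¹) = (t - s) * cv s (s ^ 2) n a := by
  obtain ⟨D, hD⟩ := det_rank_one (1 - (a.1.1 : Matrix (Fin (n + 1)) (Fin (n + 1)) R) + single 0 0 1)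
    (-((a.1.1 : Matrix (Fin (n + 1)) (Fin (n + 1)) R) *ᵥ xv (s ^ 2) n i)) (yv n i)
  have e : ∀ c : R, 1 - (a.1.1 : Matrix (Fin (n + 1)) (Fin (n + 1)) R) * (1 + c • P (s ^ 2) n i) + single 0 0 1 =
      (1 - (a.1.1 : Matrix (Fin (n + 1)) (Fin (n + 1)) R) + single 0 0 1) +
        c • vecMulVec (-((a.1.1 : Matrix (Fin (n + 1)) (Fin (n + 1)) R) *ᵥ xv (s ^ 2) n i)) (yv n i) := by
    intro c
    rw [neg_vecMulVec, ← mul_vecMulVec, ← P, mul_add, mul_one, mul_smul_comm, smul_neg]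
    abel
  have h1 : cv s (s ^ 2) n (a * g s t hst n i) = s ^ n * ((a.1.2 : R) * t) *
      (1 - (a.1.1 : Matrix (Fin (n + 1)) (Fin (n + 1)) R) * (1 + (1 : R) • P (s ^ 2) n i) + single 0 0 1).det := by
    rw [one_smul]
    rfl
  have h2 : cv s (s ^ 2) n (a * (g s t hst n i)⁻¹) = s ^ n * ((a.1.2 : R) * s) *
      (1 - (a.1.1 : Matrix (Fin (n + 1)) (Fin (n + 1)) R) * (1 + t ^ 2 • P (s ^ 2) n i) + single 0 0 1).det := rfl
  rw [h1, h2, e, e, hD, hD]
  unfold cv
  linear_combination (-(s ^ n * (a.1.2 : R) * D * t)) * hst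

theorem cv_skein (hst : s * t = 1) (n : ℕ) (a b : Fix (s ^ 2) n) (i : Fin n) :
    cv s (s ^ 2) n (a * g s t hst n i * b) - cv s (s ^ 2) n (a * (g s t hst n i)⁻¹ * b) =
      (t - s) * cv s (s ^ 2) n (a * b) := by
  rw [cv_conj _ _ _ (a * _) b, cv_conj _ _ _ (a * _) b, cv_conj _ _ _ a b, ← mul_assoc, ← mul_assoc, cv_skein']

end Pool.Agent.Helper60.Burau
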