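import Pool.Agent.Helper60.Burau.Rep

/-!
# Stabilisation
-/

set_option autoImplicit false

namespace Pool.Agent.Helper60.Burau

open Matrix

variable {R : Type*} [CommRing R]

/-- One more index. -/
def eq1 (n : ℕ) : Fin (n + 1) ⊕ Fin 1 ≃ Fin (n + 2) := finSumFinEquiv

theorem eq1_inl (n : ℕ) (a : Fin (n + 1)) : eq1 n (Sum.inl a) = a.castSucc := rfl

theorem eq1_inr (n : ℕ) (a : Fin 1) : eq1 n (Sum.inr a) = Fin.last (n + 1) := by
  rw [Subsingleton.elim a 0]
  rfl

/-- One more strand. -/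
def embM (n : ℕ) : Matrix (Fin (n + 1)) (Fin (n + 1)) R →* Matrix (Fin (n + 2)) (Fin (n + 2)) R where
  toFun B := (fromBlocks B 0 0 1).submatrix (eq1 n).symm (eq1 n).symm
  map_one' := by rw [fromBlocks_one, submatrix_one_equiv]
  map_mul' A B := by
    rw [submatrix_mul_equiv, fromBlocks_multiply]
    simp

theorem embM_cc (n : ℕ) (B : Matrix (Fin (n + 1)) (Fin (n + 1)) R) (a b : Fin (n + 1)) :
    embM n B a.castSucc b.castSucc = B a b := by
  change fromBlocks B 0 0 1 ((eq1 n).symm a.castSucc) ((eq1 n).symm b.castSucc) = _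
  rw [← eq1_inl, ← eq1_inl, Equiv.symm_apply_apply, Equiv.symm_apply_apply, fromBlocks_apply₁₁]

theorem embM_cl (n : ℕ) (B : Matrix (Fin (n + 1)) (Fin (n + 1)) R) (a : Fin (n + 1)) :
    embM n B a.castSucc (Fin.last (n + 1)) = 0 := by
  change fromBlocks B 0 0 1 ((eq1 n).symm a.castSucc) ((eq1 n).symm (Fin.last (n + 1))) = _
  rw [← eq1_inl, ← eq1_inr n 0, Equiv.symm_apply_apply, Equiv.symm_apply_apply, fromBlocks_apply₁₂]
  rfl

theorem embM_lc (n : ℕ) (B : Matrix (Fin (n + 1)) (Fin (n + 1)) R) (b : Fin (n + 1)) :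
    embM n B (Fin.last (n + 1)) b.castSucc = 0 := by
  change fromBlocks B 0 0 1 ((eq1 n).symm (Fin.last (n + 1))) ((eq1 n).symm b.castSucc) = _
  rw [← eq1_inl, ← eq1_inr n 0, Equiv.symm_apply_apply, Equiv.symm_apply_apply, fromBlocks_apply₂₁]
  rfl

theorem embM_ll (n : ℕ) (B : Matrix (Fin (n + 1)) (Fin (n + 1)) R) :
    embM n B (Fin.last (n + 1)) (Fin.last (n + 1)) = 1 := by
  change fromBlocks B 0 0 1 ((eq1 n).symm (Fin.last (n + 1))) ((eq1 n).symm (Fin.last (n + 1))) = _
  rw [← eq1_inr n 0, Equiv.symm_apply_apply, fromBlocks_apply₂₂]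
  rfl

theorem embM_P (q : R) (n : ℕ) (i : Fin n) : embM n (1 + P q n i) = 1 + P q (n + 1) i.castSucc := by
  have hx : ∀ a : Fin (n + 1), xv q (n + 1) i.castSucc a.castSucc = xv q n i a := by
    intro a
    rw [xv_apply, xv_apply]
    rfl
  have hx' : xv q (n + 1) i.castSucc (Fin.last (n + 1)) = 0 := by
    rw [xv_apply, if_neg (by simp; omega), if_neg (by simp; omega), add_zero]
  have hy : ∀ a : Fin (n + 1), yv (R := R) (n + 1) i.castSucc a.castSucc = yv n i a := by
    intro a
    simp only [yv, Pi.sub_apply, Pi.single_apply, Fin.ext_iff, Fin.val_castSucc, Fin.val_succ]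
  have hy' : yv (R := R) (n + 1) i.castSucc (Fin.last (n + 1)) = 0 := by
    simp only [yv, Pi.sub_apply, Pi.single_apply, Fin.ext_iff, Fin.val_castSucc, Fin.val_succ, Fin.val_last]
    rw [if_neg (by omega), if_neg (by omega), sub_zero]
  ext a b
  refine Fin.lastCases ?_ (fun a => ?_) a <;> refine Fin.lastCases ?_ (fun b => ?_) b
  · rw [embM_ll, Matrix.add_apply, P, vecMulVec_apply, hx', zero_mul, add_zero, one_apply_eq]
  · rw [embM_lc, Matrix.add_apply, P, vecMulVec_apply, hx', zero_mul, add_zero, one_apply_ne (Fin.castSucc_lt_last b).ne']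
  · rw [embM_cl, Matrix.add_apply, P, vecMulVec_apply, hy', mul_zero, add_zero, one_apply_ne (Fin.castSucc_lt_last a).ne]
  · rw [embM_cc, Matrix.add_apply, Matrix.add_apply, P, P, vecMulVec_apply, vecMulVec_apply, hx, hy]
    congr 1
    simp [one_apply]

theorem embM_mulVec_c (n : ℕ) (B : Matrix (Fin (n + 1)) (Fin (n + 1)) R) (f : Fin (n + 2) → R) (a : Fin (n + 1)) :
    (embM n B *ᵥ f) a.castSucc = ∑ b, B a b * f b.castSucc := by
  rw [mulVec, dotProduct, Fin.sum_univ_castSucc, embM_cl, zero_mul, add_zero]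
  exact Finset.sum_congr rfl fun b _ => by rw [embM_cc]

theorem embM_mulVec_l (n : ℕ) (B : Matrix (Fin (n + 1)) (Fin (n + 1)) R) (f : Fin (n + 2) → R) :
    (embM n B *ᵥ f) (Fin.last (n + 1)) = f (Fin.last (n + 1)) := by
  rw [mulVec, dotProduct, Fin.sum_univ_castSucc, embM_ll, one_mul, Finset.sum_eq_zero, zero_add]
  intro b _
  rw [embM_lc, zero_mul]

theorem det_stab (q : R) (n : ℕ) (B : Matrix (Fin (n + 1)) (Fin (n + 1)) R) :
    (1 - embM n B * (1 + P q (n + 1) (Fin.last n)) + single 0 0 1).det = (1 - B + single 0 0 1).det := by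
  have h1 : (1 - embM n B * (1 + P q (n + 1) (Fin.last n)) + single 0 0 1).submatrix (eq1 n) (eq1 n) =
      fromBlocks (1 - B + single 0 0 1 + vecMulVec (fun a => q * B a (Fin.last n)) (Pi.single (Fin.last n) 1))
        (replicateCol (Fin 1) fun a => -(q * B a (Fin.last n))) (replicateRow (Fin 1) (-Pi.single (Fin.last n) 1)) 1 := by
    have hx : ∀ a : Fin (n + 1), (embM n B *ᵥ xv q (n + 1) (Fin.last n)) a.castSucc = -(q * B a (Fin.last n)) := by
      intro a
      rw [embM_mulVec_c, Finset.sum_eq_single (Fin.last n)]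
      · rw [xv_apply, if_pos (by simp), if_neg (by simp)]
        ring
      · intro b _ hb
        rw [xv_apply, if_neg, if_neg, add_zero, mul_zero]
        · have := b.2
          simp only [Fin.val_castSucc, Fin.val_last]
          omega
        · intro h
          exact hb (Fin.ext h)
      · intro h
        exact absurd (Finset.mem_univ _) h
    have hx' : (embM n B *ᵥ xv q (n + 1) (Fin.last n)) (Fin.last (n + 1)) = 1 := by
      rw [embM_mulVec_l, xv_apply, if_neg (by simp), if_pos (by simp), zero_add]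
    have hy : ∀ b : Fin (n + 1), yv (R := R) (n + 1) (Fin.last n) b.castSucc = (Pi.single (Fin.last n) 1 : Fin (n + 1) → R) b := by
      intro b
      have hb := b.2
      simp only [yv, Pi.sub_apply, Pi.single_apply, Fin.ext_iff, Fin.val_castSucc, Fin.val_succ, Fin.val_last]
      rw [if_neg (by omega : ¬ (b : ℕ) = n + 1), sub_zero]
    have hy' : yv (R := R) (n + 1) (Fin.last n) (Fin.last (n + 1)) = -1 := by
      simp only [yv, Pi.sub_apply, Pi.single_apply, Fin.ext_iff, Fin.val_castSucc, Fin.val_succ, Fin.val_last]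
      rw [if_neg (by omega), if_pos trivial, zero_sub]
    have e : ∀ a b, (1 - embM n B * (1 + P q (n + 1) (Fin.last n)) + single 0 0 1 : Matrix (Fin (n + 2)) (Fin (n + 2)) R) a b =
        (1 : Matrix (Fin (n + 2)) (Fin (n + 2)) R) a b - embM n B a b -
          (embM n B *ᵥ xv q (n + 1) (Fin.last n)) a * yv (n + 1) (Fin.last n) b +
            (single 0 0 1 : Matrix (Fin (n + 2)) (Fin (n + 2)) R) a b := by
      intro a b
      rw [mul_add, mul_one, P, mul_vecMulVec]
      simp only [Matrix.add_apply, Matrix.sub_apply, vecMulVec_apply]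
      ring
    ext a b
    rw [submatrix_apply]
    rcases a with a | a <;> rcases b with b | b
    · rw [fromBlocks_apply₁₁, eq1_inl, eq1_inl, e, hx, hy, embM_cc]
      have h2 : (1 : Matrix (Fin (n + 2)) (Fin (n + 2)) R) a.castSucc b.castSucc = (1 : Matrix (Fin (n + 1)) (Fin (n + 1)) R) a b := by
        simp [one_apply]
      have h3 : (single 0 0 1 : Matrix (Fin (n + 2)) (Fin (n + 2)) R) a.castSucc b.castSucc =
          (single 0 0 1 : Matrix (Fin (n + 1)) (Fin (n + 1)) R) a b := by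
        simp [single_apply, Fin.ext_iff]
      rw [h2, h3]
      simp only [Matrix.add_apply, Matrix.sub_apply, vecMulVec_apply]
      ring
    · rw [fromBlocks_apply₁₂, eq1_inl, eq1_inr, e, hx, hy', embM_cl]
      have h2 : (1 : Matrix (Fin (n + 2)) (Fin (n + 2)) R) a.castSucc (Fin.last (n + 1)) = 0 :=
        one_apply_ne (Fin.castSucc_lt_last a).ne
      have h3 : (single 0 0 1 : Matrix (Fin (n + 2)) (Fin (n + 2)) R) a.castSucc (Fin.last (n + 1)) = 0 := by
        simp [Fin.ext_iff]
      rw [h2, h3]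
      simp
    · rw [fromBlocks_apply₂₁, eq1_inl, eq1_inr, e, hx', hy, embM_lc]
      have h2 : (1 : Matrix (Fin (n + 2)) (Fin (n + 2)) R) (Fin.last (n + 1)) b.castSucc = 0 :=
        one_apply_ne (Fin.castSucc_lt_last b).ne'
      have h3 : (single 0 0 1 : Matrix (Fin (n + 2)) (Fin (n + 2)) R) (Fin.last (n + 1)) b.castSucc = 0 := by
        simp [Fin.ext_iff]
      rw [h2, h3]
      simp
    · rw [fromBlocks_apply₂₂, eq1_inr, eq1_inr, e, hx', hy', embM_ll, Subsingleton.elim a b]
      have h3 : (single 0 0 1 : Matrix (Fin (n + 2)) (Fin (n + 2)) R) (Fin.last (n + 1)) (Fin.last (n + 1)) = 0 := by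
        simp [Fin.ext_iff]
      rw [h3, one_apply_eq, one_apply_eq]
      ring
  rw [← det_submatrix_equiv_self (eq1 n), h1, det_fromBlocks_one₂₂]
  congr 1
  ext a b
  simp [mul_apply, vecMulVec_apply]

theorem det_emb (n : ℕ) (B : Matrix (Fin (n + 1)) (Fin (n + 1)) R) : (1 - embM n B + single 0 0 1).det = 0 := by
  refine det_eq_zero_of_row_eq_zero (Fin.last (n + 1)) fun b => ?_
  refine Fin.lastCases ?_ (fun b => ?_) b
  · simp [embM_ll, Fin.ext_iff]
  · have h2 : (1 : Matrix (Fin (n + 2)) (Fin (n + 2)) R) (Fin.last (n + 1)) b.castSucc = 0 :=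
      one_apply_ne (Fin.castSucc_lt_last b).ne'
    simp [embM_lc, Fin.ext_iff, h2]

end Pool.Agent.Helper60.Burau
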